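import Pool.Agent.RRM.Main

/-!
# The randomly rotated coordinate-wise median in dimension three

Question Q1 asks whether the approximation ratio `α_d` of the randomly rotated coordinate-wise
median is at most `√2` for every dimension `d`. This was known for `d = 1` (`α_1 = 1`) and `d = 2`
(`α_2 = 4 / π`). We prove it for `d = 3`, with a strict inequality: `α_3 ≤ 1.412 < √2`.

For every instance `p` in `ℝ³` (`n + 1` points, repetitions allowed), every location `y` and the
Haar probability measure `μ` on `SO(3)` (it is enough that the Borel probability measure `μ` is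
invariant under left multiplication) the expected social cost of the mechanism is at most
`1.412 * cost p y`.

Proof. We prove a sharp inequality in one frame: if `m` is the coordinate-wise median of the points
`z_i ∈ ℝ³`, then `∑ ‖z_i - m‖ ≤ ∑ h(z_i)`, where `h(z) = a + b + c / √3` for the absolute values
`a ≥ b ≥ c` of the coordinates of `z`. We may assume `m_j ≥ 0`. Let `h₂(b, c) = max(b, c) +
min(b, c) / √3` and `N = ‖m‖`. There are multipliers `λ_j ≥ 0` with `∑ λ_j = 2 N` and

  `N + m_j - h₂(m_k, m_l) ≤ λ_j ≤ N + m_j - √(m_k² + m_l²)`: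

this follows from Hlawka's inequality for the vectors `m_j e_j` and from the reverse inequality
`‖m‖₁ + ‖m‖₂ ≤ ∑ h₂(m_k, m_l)` for the function `h₂`. With these multipliers one has for all `z`

  `‖z - m‖ + ∑ ± λ_j / 2 ≤ h(z)`,

with the sign `+` for the coordinates with `z_j ≥ m_j`; the four cases (according to the number of
these coordinates) follow from the convexity of `h₂` and of the norm. At least half of the points
have `z_j ≥ m_j`, so that the terms with the multipliers have a sum `≥ 0`. It remains to average over
the rotations: `E h(R x) = c ‖x‖` with `c = 3/2 - (1 - 1/√3) (3/2 - (3√2/π) arctan √2) = 1.4113`.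
-/

set_option autoImplicit false

namespace Pool.Agent.Results.MP_539dce_lc.DimensionThree

open MeasureTheory Pool.Agent.RRM

/-- **`α_3 ≤ 1.412 < √2`.** -/
theorem result [MeasurableSpace (SO 3)] [BorelSpace (SO 3)] (μ : Measure (SO 3))
    [IsProbabilityMeasure μ] (hμ : ∀ Q : SO 3, μ.map (fun R => Q * R) = μ) {n : ℕ}
    (p : Fin (n + 1) → E 3) :
    Integrable (fun R => cost p (rr R p)) μ ∧
      ∀ y : E 3, ∫ R, cost p (rr R p) ∂μ ≤ 1.412 * cost p y ∧
        1.412 * cost p y ≤ √2 * cost p y := by
  refine ⟨(main μ hμ p 0).1, fun y => ⟨(main μ hμ p y).2, ?_⟩⟩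
  refine mul_le_mul_of_nonneg_right ?_ (Finset.sum_nonneg fun i _ => norm_nonneg _)
  exact Real.le_sqrt_of_sq_le (by norm_num)

end Pool.Agent.Results.MP_539dce_lc.DimensionThree
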