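import Pool.Agent.RRS.PairsAll

/-!
# The randomly rotated coordinate-wise median: `α_d ≤ √2` in every dimension

Question Q1 asks whether the approximation ratio `α_d` of the randomly rotated coordinate-wise
median is at most `√2` in every dimension `d`. We prove that it is. (The constant is optimal for
large `d`: `α_d ≥ √2 - O(1/√d)` is listed as known.)

Proof. Let `y` be an optimal location and `x_j = p_j - y`. By the optimality of `y` there are
vectors `u_j` of norm at most one with the sum `0`, and `u_j = x_j / |x_j|` if `x_j ≠ 0` (`Opt`).
Let `X_j = R x_j`, and let `M` be the coordinate-wise median of the `X_j`; after scaling,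
`E |M|² = 1` (`Scale`). Let `r_j = |x_j|` and `P_j = E ⟨X_j, M⟩`. The expected cost is at most
`∑_j t_j`, where `t_j = √(1 - 2 P_j + r_j²)`. The following sums over all ordered pairs `(j, k)` are
added to it.

* The sum of `(g_j + g_k) ⟨u_j, u_k⟩`, which is `0`; `g_j` depends only on the type `(r_j, P_j)`.
* In each coordinate there are weights `σ_j ∈ [0, 1]` with `∑_j (1 - 2 σ_j) = 0` such that
  `σ_j = 1` if `X_j` is beyond `M` (seen from `0`) and `σ_j = 0` if `X_j` is on the other side.
  Therefore the sum of `F_j(X_j, M) (1 - 2 σ_k) + F_k(X_k, M) (1 - 2 σ_j)` is `0` for all functions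
  `F_j`. Here `F_j` is `M²` times a piecewise linear function of `X / M`, which is given by five
  numbers, and these are piecewise linear functions of `r_j` (`Funcs`).
* For each pair, with the angle `θ` of `x_j` and `x_k`, multiples `α, β, γ` of `|M|²`, `⟨X_j, M⟩`,
  `⟨X_k, M⟩`, and a function `H(X_j, X_k)` of the coordinates, homogeneous of degree two. The mean
  of its sum over the coordinates is computed in the plane of `x_j` and `x_k` (`PlaneM`); it is
  `(1/π) ∫_0^{2π} H(r_j cos φ, r_k cos (φ - θ)) dφ`.

This reduces the theorem (`Red`) to the pair inequality `AllPairs` (`Defs`): for each pair of types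
there are `α, β, γ, H` such that, in one coordinate, the sum of the terms is nonnegative for all
positions and weights, and the mean value
`t_j + t_k - √2 (r_j + r_k) + α + β P_j + γ P_k + (mean of H) - (g_j + g_k) cos θ` is at most `0`.
The pair inequality is proved

* for `max(r_j, r_k) ≥ 3` by hand, except for a compact set of pairs, for which there is a table of
  cells (`TailAll`, `MidData`);
* for `θ ≤ π/8` (`SlabD`, `Theta0`), for `θ = π` (`Pi7`, `PiRc`) and for `x_j = 0` (`ZeroType`);
* for `θ` near `π` and `r_j² + r_k²` between `3/2` and `23/10`, where the inequality is nearly an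
  equality, by hand (`TubeMainN`);
* in the remaining region with 1078 boxes: in each of them `α, β, γ, H` are given by a table, and
  the inequality follows from inequalities of integers, which the kernel evaluates (`Boxes`).
-/

set_option autoImplicit false

namespace Pool.Agent.Results.MP_539dce_lc.SqrtTwo

open MeasureTheory Pool.Agent.RRM

/-- **`α_d ≤ √2` in every dimension.** -/
theorem result {d : ℕ} [MeasurableSpace (SO d)] [BorelSpace (SO d)] (μ : Measure (SO d))
    [IsProbabilityMeasure μ] (hμ : ∀ Q : SO d, μ.map (fun R => Q * R) = μ) {n : ℕ}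
    (p : Fin (n + 1) → E d) :
    Integrable (fun R => cost p (rr R p)) μ ∧
      ∀ y : E d, ∫ R, cost p (rr R p) ∂μ ≤ √2 * cost p y :=
  ⟨(Pool.Agent.RRS.reduction μ hμ Pool.Agent.RRS.pairs_all p 0).1,
    fun y => (Pool.Agent.RRS.reduction μ hμ Pool.Agent.RRS.pairs_all p y).2⟩

end Pool.Agent.Results.MP_539dce_lc.SqrtTwo
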